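import Pool.Agent.Q170.Renorm.Basis

/-!
MP_47003a_an, Q1: the simultaneous renorming statement is false, for real and for complex scalars.
-/

namespace Pool.Agent.Results.MP_47003a_an.NoSimultaneousRenorming

/-- There is a Banach space `B` (it is `ℓ² × ℓ⁴`) with a Schauder basis `x` (Mathlib's
`SchauderBasis`, coordinate functionals `x.coord`) and a closed complemented subspace `E`, such that
for every seminorm `q` equivalent to the norm of `B` for which the basis is monotone, no linear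
projection of `B` onto `E` is a `q`-contraction. -/
theorem result (𝕜 : Type) [RCLike 𝕜] :
    ∃ (B : Type) (_ : NormedAddCommGroup B) (_ : NormedSpace 𝕜 B) (_ : CompleteSpace B)
      (x : SchauderBasis 𝕜 B) (E : Submodule 𝕜 B),
      IsClosed (E : Set B) ∧
      (∃ p : B →L[𝕜] B, (∀ z, p z ∈ E) ∧ ∀ z ∈ E, p z = z) ∧
      ∀ (q : Seminorm 𝕜 B) (c C : ℝ), 0 < c → (∀ z, c * ‖z‖ ≤ q z ∧ q z ≤ C * ‖z‖) →
        (∀ (n : ℕ) (z : B), q (∑ i ∈ Finset.range n, x.coord i z • x i) ≤ q z) →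
        ¬ ∃ P : B →ₗ[𝕜] B, (∀ z, P z ∈ E) ∧ (∀ z ∈ E, P z = z) ∧ ∀ z, q (P z) ≤ q z := by
  refine ⟨Q170.Renorm.B 𝕜, inferInstance, inferInstance, inferInstance, Q170.Renorm.sb 𝕜,
    Q170.Renorm.E₀ 𝕜, ?_, ?_, ?_⟩
  · have h : ((Q170.Renorm.E₀ 𝕜 : Submodule 𝕜 (Q170.Renorm.B 𝕜)) : Set (Q170.Renorm.B 𝕜)) =
        {z | z.2 = 0} := Set.ext fun z => Q170.Renorm.mem_E₀ 𝕜 z
    rw [h]
    exact isClosed_eq continuous_snd continuous_const
  · refine ⟨(ContinuousLinearMap.inl 𝕜 (Q170.Renorm.H 𝕜) (Q170.Renorm.G 𝕜)).comp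
      (ContinuousLinearMap.fst 𝕜 (Q170.Renorm.H 𝕜) (Q170.Renorm.G 𝕜)), fun z => ?_, fun z hz => ?_⟩
    · rw [Q170.Renorm.mem_E₀]; rfl
    · rw [Q170.Renorm.mem_E₀] at hz
      rw [Prod.ext_iff]
      exact ⟨rfl, hz.symm⟩
  · rintro q c C hc hq hmono ⟨P, hP1, hP2, hP⟩
    exact Q170.Renorm.main 𝕜 q c C hc hq hmono P hP1 hP2 hP

end Pool.Agent.Results.MP_47003a_an.NoSimultaneousRenorming
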